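import Pool.Agent.Q270.PX.Dioph0

/-!
# Fractions with smooth denominators and short smooth numerators are not close to integers
-/

set_option autoImplicit false

open Finset Filter Topology

namespace Pool.Agent.Q270.SU

open Pool.Agent.TH419.WI

/-- the arithmetic claim for `s` terms, in terms of sequences -/
def Claim (O : Type) [CommRing O] (ρ : O →+* ℝ) {k : ℕ} (g : Fin k → ℕ) (C κ : ℝ) (s : ℕ) : Prop :=
  ∀ (η : Fin s → O) (δ : ℝ) (_ : κ < δ) (L : ℕ → ℝ) (_ : Tendsto L atTop atTop)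
    (e0 : ℕ → Fin k → ℕ) (e : ℕ → Fin s → Fin k → ℕ) (lam : ℕ → Fin s → ℤ) (P : ℕ → ℤ)
    (_ : ∀ᶠ t in atTop, ((mon g (e0 t) : ℤ) : ℝ) ≤ Real.exp (C * L t))
    (_ : ∀ᶠ t in atTop, ∀ i, ((mon g (e0 t) : ℤ) : ℝ) * Real.exp (-(κ * L t)) ≤
      ((mon g (e t i) : ℤ) : ℝ))
    (_ : ∀ᶠ t in atTop, ∀ i, ((mon g (e t i) : ℤ) : ℝ) ≤ Real.exp (C * L t))
    (_ : ∀ ε : ℝ, 0 < ε → ∀ᶠ t in atTop, ∀ i, |(lam t i : ℝ)| ≤ Real.exp (ε * L t))
    (_ : ∀ᶠ t in atTop, ∑ i, ρ (η i) * ((mon g (e t i) * lam t i : ℤ) : ℝ) ≠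
      ((mon g (e0 t) * P t : ℤ) : ℝ))
    (_ : ∀ᶠ t in atTop, |∑ i, ρ (η i) * ((mon g (e t i) * lam t i : ℤ) : ℝ) -
      ((mon g (e0 t) * P t : ℤ) : ℝ)| ≤
      ((mon g (e0 t) : ℤ) : ℝ) * Real.exp (-(δ * L t))), False

lemma reduce {O : Type} [CommRing O] {ρ : O →+* ℝ} {k : ℕ} {g : Fin k → ℕ}
    (hg : ∀ v, 0 < g v) {C κ : ℝ} {s : ℕ}
    (hcl : Claim O ρ g C κ s) (η : Fin (s + 1) → O)
    (δ : ℝ) (hδ : κ < δ) (L : ℕ → ℝ) (hL : Tendsto L atTop atTop)
    (e0 : ℕ → Fin k → ℕ) (e : ℕ → Fin (s + 1) → Fin k → ℕ)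
    (lam : ℕ → Fin (s + 1) → ℤ) (P : ℕ → ℤ)
    (h0 : ∀ᶠ t in atTop, ((mon g (e0 t) : ℤ) : ℝ) ≤ Real.exp (C * L t))
    (h0' : ∀ᶠ t in atTop, ∀ i, ((mon g (e0 t) : ℤ) : ℝ) * Real.exp (-(κ * L t)) ≤
      ((mon g (e t i) : ℤ) : ℝ))
    (h1 : ∀ᶠ t in atTop, ∀ i, ((mon g (e t i) : ℤ) : ℝ) ≤ Real.exp (C * L t))
    (h2 : ∀ ε : ℝ, 0 < ε → ∀ᶠ t in atTop, ∀ i, |(lam t i : ℝ)| ≤ Real.exp (ε * L t))
    (h3 : ∀ᶠ t in atTop, ∑ i, ρ (η i) * ((mon g (e t i) * lam t i : ℤ) : ℝ) ≠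
      ((mon g (e0 t) * P t : ℤ) : ℝ))
    (h4 : ∀ᶠ t in atTop, |∑ i, ρ (η i) * ((mon g (e t i) * lam t i : ℤ) : ℝ) -
      ((mon g (e0 t) * P t : ℤ) : ℝ)| ≤
      ((mon g (e0 t) : ℤ) : ℝ) * Real.exp (-(δ * L t)))
    (y : Fin (s + 1) → ℤ) (hy : y ≠ 0)
    (hfr : ∃ᶠ t in atTop, ∑ l, y l * (mon g (e t l) * lam t l) = 0) : False := by
  classical
  obtain ⟨i1, hi1⟩ : ∃ i, y i ≠ 0 := by
    by_contra hcon
    push Not at hcon
    exact hy (funext hcon)
  have hi1R : (y i1 : ℝ) ≠ 0 := by exact_mod_cast hi1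
  obtain ⟨ψ, hψ, hrel⟩ := Filter.extraction_of_frequently_atTop hfr
  have hψt := hψ.tendsto_atTop
  have hLψ : Tendsto (L ∘ ψ) atTop atTop := hL.comp hψt
  have hkey : ∀ n, ∑ j : Fin s, ρ (((y i1 : ℤ) : O) * η (i1.succAbove j) -
      ((y (i1.succAbove j) : ℤ) : O) * η i1) *
      ((mon g (e (ψ n) (i1.succAbove j)) * lam (ψ n) (i1.succAbove j) : ℤ) : ℝ) =
      (y i1 : ℝ) * ∑ i, ρ (η i) * ((mon g (e (ψ n) i) * lam (ψ n) i : ℤ) : ℝ) := by
    intro n
    have h5 : (y i1 : ℝ) * ∑ i, ρ (η i) * ((mon g (e (ψ n) i) * lam (ψ n) i : ℤ) : ℝ) =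
        ∑ i, ρ (((y i1 : ℤ) : O) * η i - ((y i : ℤ) : O) * η i1) *
          ((mon g (e (ψ n) i) * lam (ψ n) i : ℤ) : ℝ) := by
      have h6 : ∑ i, (y i : ℝ) * ((mon g (e (ψ n) i) * lam (ψ n) i : ℤ) : ℝ) = 0 := by
        exact_mod_cast hrel n
      have h7 : ∀ i, ρ (((y i1 : ℤ) : O) * η i - ((y i : ℤ) : O) * η i1) *
          ((mon g (e (ψ n) i) * lam (ψ n) i : ℤ) : ℝ) =
          (y i1 : ℝ) * (ρ (η i) * ((mon g (e (ψ n) i) * lam (ψ n) i : ℤ) : ℝ)) -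
          ρ (η i1) * ((y i : ℝ) * ((mon g (e (ψ n) i) * lam (ψ n) i : ℤ) : ℝ)) := by
        intro i
        rw [map_sub, map_mul, map_mul, map_intCast, map_intCast]
        ring
      simp only [h7]
      rw [Finset.sum_sub_distrib, ← Finset.mul_sum, ← Finset.mul_sum, h6, mul_zero, sub_zero]
    rw [h5, Fin.sum_univ_succAbove _ i1, sub_self, map_zero, zero_mul, zero_add]
  have hdiff : ∀ n, (y i1 : ℝ) * ∑ i, ρ (η i) * ((mon g (e (ψ n) i) * lam (ψ n) i : ℤ) : ℝ) -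
        ((mon g (e0 (ψ n)) * (y i1 * P (ψ n)) : ℤ) : ℝ) = (y i1 : ℝ) *
        (∑ i, ρ (η i) * ((mon g (e (ψ n) i) * lam (ψ n) i : ℤ) : ℝ) -
          ((mon g (e0 (ψ n)) * P (ψ n) : ℤ) : ℝ)) := by
    intro n
    push_cast; ring
  refine hcl (fun j => ((y i1 : ℤ) : O) * η (i1.succAbove j) -
      ((y (i1.succAbove j) : ℤ) : O) * η i1) ((κ + δ) / 2) (by linarith) (L ∘ ψ) hLψ
    (fun n => e0 (ψ n)) (fun n j => e (ψ n) (i1.succAbove j))
    (fun n j => lam (ψ n) (i1.succAbove j))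
    (fun n => y i1 * P (ψ n)) (hψt.eventually h0) ?_ ?_ ?_ ?_ ?_
  · filter_upwards [hψt.eventually h0'] with n h5 j
    exact h5 _
  · filter_upwards [hψt.eventually h1] with n h5 j
    exact h5 _
  · intro ε hε
    filter_upwards [hψt.eventually (h2 ε hε)] with n h5 j
    exact h5 _
  · filter_upwards [hψt.eventually h3] with n h5
    rw [hkey n, ne_eq, ← sub_eq_zero, hdiff n]
    exact mul_ne_zero hi1R (sub_ne_zero.2 h5)
  · filter_upwards [hψt.eventually h4, ev_const_le hLψ |((y i1 : ℤ) : ℝ)| ((δ - κ) / 2)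
      (by linarith)] with n h5 h6
    rw [hkey n]
    have hm : (0 : ℝ) < ((mon g (e0 (ψ n)) : ℤ) : ℝ) := by exact_mod_cast mon_pos hg _
    rw [hdiff n, abs_mul]
    calc |(y i1 : ℝ)| * |∑ i, ρ (η i) * ((mon g (e (ψ n) i) * lam (ψ n) i : ℤ) : ℝ) -
          ((mon g (e0 (ψ n)) * P (ψ n) : ℤ) : ℝ)|
        ≤ Real.exp ((δ - κ) / 2 * (L ∘ ψ) n) *
          (((mon g (e0 (ψ n)) : ℤ) : ℝ) * Real.exp (-(δ * L (ψ n)))) :=
          mul_le_mul h6 h5 (abs_nonneg _) (Real.exp_pos _).le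
      _ = ((mon g (e0 (ψ n)) : ℤ) : ℝ) *
          (Real.exp ((δ - κ) / 2 * (L ∘ ψ) n) * Real.exp (-(δ * L (ψ n)))) := by ring
      _ = ((mon g (e0 (ψ n)) : ℤ) : ℝ) * Real.exp (-((κ + δ) / 2 * (L ∘ ψ) n)) := by
          rw [← Real.exp_add]; congr 2; simp only [Function.comp]; ring

lemma claim_succ (O : Type) [CommRing O] [IsDomain O] [CharZero O] [Module.Free ℤ O]
    [Module.Finite ℤ O] (ρ : O →+* ℝ) {k : ℕ} {g : Fin k → ℕ}
    (hg : ∀ v, 0 < g v) {C κ : ℝ} (hC : 0 ≤ C) (hκ : 0 ≤ κ) {s : ℕ} (hcl : Claim O ρ g C κ s) :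
    Claim O ρ g C κ (s + 1) := by
  classical
  intro η δ hδ L hL e0 e lam P h0 h0' h1 h2 h3 h4
  let φ : O →+* ℂ := (Complex.ofRealHom).comp ρ
  have hφ : ∀ x : O, φ x = ((ρ x : ℝ) : ℂ) := fun x => rfl
  have hreal : ∀ x : O, (φ x).im = 0 := fun x => Complex.ofReal_im _
  have hnorm : ∀ x : O, ‖φ x‖ = |ρ x| := fun x => by rw [hφ, Complex.norm_real]; rfl
  have hL0 : ∀ᶠ t in atTop, 0 ≤ L t := hL.eventually_ge_atTop 0
  have hδ0 : 0 < δ := lt_of_le_of_lt hκ hδ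
  -- not all of `lam` and `P` vanish
  have hz : ∀ᶠ t in atTop, (Fin.cons (P t) (lam t) : Fin (s + 2) → ℤ) ≠ 0 := by
    filter_upwards [h3] with t h5 h0
    apply h5
    have e1 : P t = 0 := by
      have := congrFun h0 0
      rwa [Fin.cons_zero] at this
    have e2 : ∀ i, lam t i = 0 := fun i => by
      have := congrFun h0 i.succ
      rwa [Fin.cons_succ] at this
    rw [e1]
    simp [e2]
  -- eventually `lam ≠ 0`: otherwise `s0 P` is small and nonzero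
  have hz2 : ∀ᶠ t in atTop, lam t ≠ 0 := by
    filter_upwards [h3, h4, (hL.const_mul_atTop hδ0).eventually_gt_atTop 0] with t h5 h6 h8 h0
    have h7 : ∑ i, ρ (η i) * ((mon g (e t i) * lam t i : ℤ) : ℝ) = 0 := by
      apply Finset.sum_eq_zero
      intro i _
      rw [h0]
      simp
    rw [h7] at h5 h6
    have hm : (0 : ℝ) < ((mon g (e0 t) : ℤ) : ℝ) := by exact_mod_cast mon_pos hg _
    have hP : P t ≠ 0 := by
      rintro h9
      apply h5
      rw [h9]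
      simp
    have hP1 : (1 : ℝ) ≤ |(P t : ℝ)| := by
      have : (1 : ℤ) ≤ |P t| := Int.one_le_abs hP
      exact_mod_cast this
    rw [zero_sub, abs_neg, Int.cast_mul, abs_mul, abs_of_pos hm] at h6
    have h9 := le_of_mul_le_mul_left h6 hm
    have h10 : Real.exp (-(δ * L t)) < 1 := by
      rw [Real.exp_lt_one_iff]
      linarith
    linarith
  obtain ⟨y, hy, hfr⟩ := rel O φ hreal g hg (0 : Fin (s + 2))
    (Fin.cons (-1 : O) η) (by simp) C δ hC hδ0 L hL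
    (fun t => Fin.cons (e0 t) (e t)) (fun t => Fin.cons (P t) (lam t))
    (by
      filter_upwards [h1, h0] with t h5 h6 l
      refine Fin.cases ?_ (fun i => ?_) l
      · rw [Fin.cons_zero]
        exact h6
      · rw [Fin.cons_succ]
        exact h5 i)
    (by
      intro ε hε
      filter_upwards [h2 ε hε] with t h5 l hl
      obtain ⟨i, rfl⟩ := Fin.exists_succ_eq.2 hl
      rw [Fin.cons_succ]
      exact h5 i)
    hz
    (by
      filter_upwards [h4] with t h5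
      rw [hnorm, Fin.sum_univ_succ]
      simp only [Fin.cons_zero, Fin.cons_succ]
      refine le_trans (le_of_eq ?_) h5
      congr 1
      rw [map_add, map_sum, map_mul, map_neg, map_one, map_intCast]
      simp only [map_mul, map_intCast, neg_mul, one_mul]
      ring)
  have hfr' : ∃ᶠ t in atTop, y 0 * (mon g (e0 t) * P t) +
      ∑ i : Fin (s + 1), y i.succ * (mon g (e t i) * lam t i) = 0 := by
    refine hfr.mono fun t ht => ?_
    rw [Fin.sum_univ_succ] at ht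
    simpa only [Fin.cons_zero, Fin.cons_succ] using ht
  by_cases hy0 : y 0 = 0
  · refine reduce hg hcl η δ hδ L hL e0 e lam P h0 h0' h1 h2 h3 h4 (fun i => y i.succ) ?_ ?_
    · intro h0
      apply hy
      funext l
      refine Fin.cases ?_ (fun i => ?_) l
      · exact hy0
      · exact congrFun h0 i
    · refine hfr'.mono fun t ht => ?_
      rw [hy0, zero_mul, zero_add] at ht
      exact ht
  · obtain ⟨ψ, hψ, hrel⟩ := Filter.extraction_of_frequently_atTop hfr'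
    have hψt := hψ.tendsto_atTop
    have hLψ : Tendsto (L ∘ ψ) atTop atTop := hL.comp hψt
    have hy0R : (y 0 : ℝ) ≠ 0 := by exact_mod_cast hy0
    have h7 : ∀ n, ρ (∑ l, (((y 0 : ℤ) : O) * η l + ((y (Fin.succ l) : ℤ) : O)) *
        ((mon g (e (ψ n) l) * lam (ψ n) l : ℤ) : O)) = (y 0 : ℝ) *
        (∑ i, ρ (η i) * ((mon g (e (ψ n) i) * lam (ψ n) i : ℤ) : ℝ) -
          ((mon g (e0 (ψ n)) * P (ψ n) : ℤ) : ℝ)) := by
      intro n
      have h8 : (y 0 : ℝ) * ((mon g (e0 (ψ n)) * P (ψ n) : ℤ) : ℝ) +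
          ∑ i : Fin (s + 1), (y i.succ : ℝ) *
          ((mon g (e (ψ n) i) * lam (ψ n) i : ℤ) : ℝ) = 0 := by
        exact_mod_cast hrel n
      have h9 : ∀ l : Fin (s + 1), ρ ((((y 0 : ℤ) : O) * η l + ((y (Fin.succ l) : ℤ) : O)) *
          ((mon g (e (ψ n) l) * lam (ψ n) l : ℤ) : O)) =
          (y 0 : ℝ) * (ρ (η l) * ((mon g (e (ψ n) l) * lam (ψ n) l : ℤ) : ℝ)) +
          (y (Fin.succ l) : ℝ) * ((mon g (e (ψ n) l) * lam (ψ n) l : ℤ) : ℝ) := by
        intro l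
        rw [map_mul, map_add, map_mul, map_intCast, map_intCast, map_intCast]
        ring
      rw [map_sum]
      simp only [h9]
      rw [Finset.sum_add_distrib, ← Finset.mul_sum, mul_sub]
      linarith
    obtain ⟨i0, hi0⟩ : ∃ i, ((y 0 : ℤ) : O) * η i + ((y (Fin.succ i) : ℤ) : O) ≠ 0 := by
      by_contra hno
      push Not at hno
      obtain ⟨n, hn⟩ := (hψt.eventually h3).exists
      have h10 := h7 n
      simp only [hno, zero_mul, Finset.sum_const_zero, map_zero] at h10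
      have h11 := (mul_eq_zero.1 h10.symm).resolve_left hy0R
      rw [sub_eq_zero] at h11
      exact hn h11
    obtain ⟨y', hy', hfr2⟩ := rel O φ hreal g hg i0
      (fun i => ((y 0 : ℤ) : O) * η i + ((y i.succ : ℤ) : O))
      hi0 C ((δ - κ) / 2) hC (by linarith) (L ∘ ψ) hLψ
      (fun n => e (ψ n)) (fun n => lam (ψ n))
      (hψt.eventually h1)
      (fun ε hε => (hψt.eventually (h2 ε hε)).mono fun n hn l _ => hn l)
      (hψt.eventually hz2)
      (by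
        filter_upwards [hψt.eventually h4, hψt.eventually h0',
          ev_const_le hLψ |((y 0 : ℤ) : ℝ)| ((δ - κ) / 2) (by linarith)] with n h5 h5' h6
        have hm : (0 : ℝ) < ((mon g (e0 (ψ n)) : ℤ) : ℝ) := by exact_mod_cast mon_pos hg _
        have hm' := h5' i0
        rw [hnorm, h7 n, abs_mul]
        calc |(y 0 : ℝ)| * |∑ i, ρ (η i) * ((mon g (e (ψ n) i) * lam (ψ n) i : ℤ) : ℝ) -
              ((mon g (e0 (ψ n)) * P (ψ n) : ℤ) : ℝ)|
            ≤ Real.exp ((δ - κ) / 2 * (L ∘ ψ) n) *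
              (((mon g (e0 (ψ n)) : ℤ) : ℝ) * Real.exp (-(δ * L (ψ n)))) :=
              mul_le_mul h6 h5 (abs_nonneg _) (Real.exp_pos _).le
          _ = ((mon g (e0 (ψ n)) : ℤ) : ℝ) * Real.exp (-(κ * L (ψ n))) *
              Real.exp (-((δ - κ) / 2 * (L ∘ ψ) n)) := by
              rw [mul_left_comm, mul_assoc, ← Real.exp_add, ← Real.exp_add]
              congr 2
              simp only [Function.comp]
              ring
          _ ≤ ((mon g (e (ψ n) i0) : ℤ) : ℝ) * Real.exp (-((δ - κ) / 2 * (L ∘ ψ) n)) :=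
              mul_le_mul_of_nonneg_right hm' (Real.exp_pos _).le)
    exact reduce hg hcl η δ hδ L hL e0 e lam P h0 h0' h1 h2 h3 h4 y' hy' (hψt.frequently hfr2)

lemma claim (O : Type) [CommRing O] [IsDomain O] [CharZero O] [Module.Free ℤ O]
    [Module.Finite ℤ O] (ρ : O →+* ℝ) {k : ℕ} {g : Fin k → ℕ}
    (hg : ∀ v, 0 < g v) {C κ : ℝ} (hC : 0 ≤ C) (hκ : 0 ≤ κ) (s : ℕ) : Claim O ρ g C κ s := by
  induction s with
  | zero =>
    intro η δ hδ L hL e0 e lam P h0 h0' h1 h2 h3 h4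
    have hδ0 : 0 < δ := lt_of_le_of_lt hκ hδ
    obtain ⟨t, h5, h6, h8⟩ :=
      (h3.and (h4.and ((hL.const_mul_atTop hδ0).eventually_gt_atTop 0))).exists
    rw [Finset.univ_eq_empty, Finset.sum_empty] at h5 h6
    have hm : (0 : ℝ) < ((mon g (e0 t) : ℤ) : ℝ) := by exact_mod_cast mon_pos hg _
    have hP : P t ≠ 0 := by
      rintro h9
      apply h5
      rw [h9]
      simp
    have hP1 : (1 : ℝ) ≤ |(P t : ℝ)| := by
      have : (1 : ℤ) ≤ |P t| := Int.one_le_abs hP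
      exact_mod_cast this
    rw [zero_sub, abs_neg, Int.cast_mul, abs_mul, abs_of_pos hm] at h6
    have h9 := le_of_mul_le_mul_left h6 hm
    have h10 : Real.exp (-(δ * L t)) < 1 := by
      rw [Real.exp_lt_one_iff]
      linarith
    linarith
  | succ s ih => exact claim_succ O ρ hg hC hκ ih

/-- sums of `k` terms `h s (c . α)` with smooth `s ≥ s₀ e ^ (-κ L)` are not close to multiples of
the smooth number `s₀`, unless they are equal to them -/
theorem near {r : ℕ} (α : Fin r → ℝ) (halg : ∀ j, IsAlgebraic ℚ (α j)) (S : Finset ℕ)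
    (hS : ∀ p ∈ S, 0 < p) (k : ℕ) (A κ δ : ℝ) (hA0 : 0 ≤ A) (hκ : 0 ≤ κ) (hδ : κ < δ) :
    ∃ η : ℝ, 0 < η ∧ ∃ L0 : ℝ, ∀ L : ℝ, L0 ≤ L → ∀ (s0 : ℕ) (s : Fin k → ℕ)
      (c : Fin k → Fin r → ℤ) (h : Fin k → ℤ) (P : ℤ), Smooth S s0 →
      (s0 : ℝ) ≤ Real.exp (A * L) → (∀ i, (s0 : ℝ) * Real.exp (-(κ * L)) ≤ s i) →
      (∀ i, Smooth S (s i)) → (∀ i, (s i : ℝ) ≤ Real.exp (A * L)) →
      (∀ i, |(h i : ℝ)| ≤ Real.exp (η * L)) → (∀ i j, |(c i j : ℝ)| ≤ Real.exp (η * L)) →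
      ∑ j, ((∑ i, h i * (s i * c i j) : ℤ) : ℝ) * α j ≠ s0 * P →
      s0 * Real.exp (-(δ * L)) < |∑ j, ((∑ i, h i * (s i * c i j) : ℤ) : ℝ) * α j - s0 * P| := by
  by_contra hcon
  push Not at hcon
  have hpos : ∀ j : ℕ, (0 : ℝ) < 1 / ((j : ℝ) + 1) := fun j => by positivity
  choose L hL s0 s c h P h0 h0b h0c h1 h2 h3 h3' h4 h5 using
    fun j : ℕ => hcon (1 / ((j : ℝ) + 1)) (hpos j) j
  have hLt : Tendsto L atTop atTop := tendsto_atTop_mono hL tendsto_natCast_atTop_atTop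
  obtain ⟨O, d, hd, hfin, hA⟩ := exists_order α halg
  have hdR : (d : ℝ) ≠ 0 := by exact_mod_cast hd
  let ρ : O →+* ℝ := O.val.toRingHom
  have hρ : ∀ x : O, ρ x = (x : ℝ) := fun x => rfl
  have hsum : ∀ t, ∑ p : Fin (k * r), ρ (⟨(d : ℝ) * α (finProdFinEquiv.symm p).2, hA _⟩ : O) *
      ((mon (gens S) (expo S (s t (finProdFinEquiv.symm p).1)) *
        (h t (finProdFinEquiv.symm p).1 * c t (finProdFinEquiv.symm p).1
          (finProdFinEquiv.symm p).2) : ℤ) : ℝ) =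
      (d : ℝ) * ∑ j, ((∑ i, h t i * (s t i * c t i j) : ℤ) : ℝ) * α j := by
    intro t
    have e1 := Equiv.sum_comp (finProdFinEquiv (m := k) (n := r)).symm
      (fun q : Fin k × Fin r => ρ (⟨(d : ℝ) * α q.2, hA _⟩ : O) *
      ((mon (gens S) (expo S (s t q.1)) * (h t q.1 * c t q.1 q.2) : ℤ) : ℝ))
    rw [e1, Fintype.sum_prod_type, Finset.sum_comm, Finset.mul_sum]
    refine Finset.sum_congr rfl fun j _ => ?_
    push_cast
    rw [Finset.sum_mul, Finset.mul_sum]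
    refine Finset.sum_congr rfl fun i _ => ?_
    rw [hρ]
    have e2 : ((mon (gens S) (expo S (s t i)) : ℤ) : ℝ) = (s t i : ℝ) := by
      rw [mon_expo (h1 t i)]
      push_cast
      rfl
    rw [e2]
    ring
  have hdiff : ∀ t, (d : ℝ) * ∑ j, ((∑ i, h t i * (s t i * c t i j) : ℤ) : ℝ) * α j -
        (((s0 t : ℤ) * (d * P t) : ℤ) : ℝ) =
        (d : ℝ) * (∑ j, ((∑ i, h t i * (s t i * c t i j) : ℤ) : ℝ) * α j -
          (s0 t : ℝ) * (P t : ℝ)) := by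
    intro t
    push_cast
    ring
  have hgpos : ∀ v, 0 < gens S v := fun v => hS _ (gens_mem S v)
  refine claim O ρ (g := gens S) hgpos hA0 hκ (k * r)
    (fun p => (⟨(d : ℝ) * α (finProdFinEquiv.symm p).2, hA _⟩ : O)) ((κ + δ) / 2) (by linarith) L hLt
    (fun t => expo S (s0 t)) (fun t p => expo S (s t (finProdFinEquiv.symm p).1))
    (fun t p => h t (finProdFinEquiv.symm p).1 * c t (finProdFinEquiv.symm p).1
          (finProdFinEquiv.symm p).2) (fun t => d * P t) ?_ ?_ ?_ ?_ ?_ ?_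
  · refine Eventually.of_forall fun t => ?_
    rw [mon_expo (h0 t)]
    push_cast
    exact h0b t
  · refine Eventually.of_forall fun t p => ?_
    rw [mon_expo (h0 t), mon_expo (h1 t _)]
    push_cast
    exact h0c t _
  · refine Eventually.of_forall fun t p => ?_
    rw [mon_expo (h1 t _)]
    push_cast
    exact h2 t _
  · intro ε hε
    have h6 : Tendsto (fun j : ℕ => 1 / ((j : ℝ) + 1)) atTop (𝓝 0) :=
      tendsto_one_div_add_atTop_nhds_zero_nat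
    filter_upwards [hLt.eventually_ge_atTop 0, h6.eventually_le_const (half_pos hε)] with t hj hj2 p
    push_cast
    rw [abs_mul]
    calc |(h t (finProdFinEquiv.symm p).1 : ℝ)| *
          |(c t (finProdFinEquiv.symm p).1 (finProdFinEquiv.symm p).2 : ℝ)|
        ≤ Real.exp (1 / ((t : ℝ) + 1) * L t) * Real.exp (1 / ((t : ℝ) + 1) * L t) :=
          mul_le_mul (h3 t _) (h3' t _ _) (abs_nonneg _) (Real.exp_pos _).le
      _ = Real.exp (1 / ((t : ℝ) + 1) * L t + 1 / ((t : ℝ) + 1) * L t) := (Real.exp_add _ _).symm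
      _ ≤ Real.exp (ε * L t) := by
          apply Real.exp_le_exp.2
          have : 1 / ((t : ℝ) + 1) * L t ≤ ε / 2 * L t := mul_le_mul_of_nonneg_right hj2 hj
          linarith
  · refine Eventually.of_forall fun t => ?_
    rw [hsum t, mon_expo (h0 t), ne_eq, ← sub_eq_zero, hdiff t]
    exact mul_ne_zero hdR (sub_ne_zero.2 (h4 t))
  · filter_upwards [ev_const_le hLt |(d : ℝ)| ((δ - κ) / 2) (by linarith)] with t h6
    rw [hsum t, mon_expo (h0 t), hdiff t, abs_mul]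
    have h7 := h5 t
    calc |(d : ℝ)| * |∑ j, ((∑ i, h t i * (s t i * c t i j) : ℤ) : ℝ) * α j -
          (s0 t : ℝ) * (P t : ℝ)|
        ≤ Real.exp ((δ - κ) / 2 * L t) * ((s0 t : ℝ) * Real.exp (-(δ * L t))) :=
          mul_le_mul h6 h7 (abs_nonneg _) (Real.exp_pos _).le
      _ = ((s0 t : ℤ) : ℝ) * Real.exp (-((κ + δ) / 2 * L t)) := by
          rw [mul_left_comm, ← Real.exp_add]
          push_cast
          congr 2
          ring

end Pool.Agent.Q270.SU
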